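import Pool.Agent.helper34.NTA.Spec

set_option autoImplicit false

namespace Pool.Agent.NTA

open Equiv

/-- The elements of the cycle of `d` are `(π ^ t) d`, `t < L`, if `(π ^ L) d = d`. -/
theorem CYL_mem {D : Type} (π : Perm D) (L : ℕ) (hL : 0 < L) (d e : D) (hd : (π ^ L) d = d)
    (h : π.SameCycle d e) : ∃ t < L, (π ^ t) d = e := by
  obtain ⟨i, hi⟩ := h
  have hL' : (0 : ℤ) < (L : ℤ) := by exact_mod_cast hL
  have h1 : 0 ≤ i % (L : ℤ) := Int.emod_nonneg _ hL'.ne'
  have h2 : i % (L : ℤ) < L := Int.emod_lt_of_pos _ hL'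
  obtain ⟨t, ht⟩ := Int.eq_ofNat_of_zero_le h1
  refine ⟨t, by omega, ?_⟩
  have h3 : i = i % (L : ℤ) + (L : ℤ) * (i / (L : ℤ)) := (Int.emod_add_mul_ediv i L).symm
  have h4 : (π ^ ((L : ℤ) * (i / (L : ℤ)))) d = d := by
    rw [zpow_mul]
    refine Perm.zpow_apply_eq_self_of_apply_eq_self ?_ _
    rw [zpow_natCast]
    exact hd
  rw [← hi, h3, zpow_add, Perm.mul_apply, h4, ht]
  simp

theorem CYL : CYL_stmt := by
  classical
  intro D _ π L hL hd
  let q : D → Quotient (Perm.SameCycle.setoid π) := fun d => Quotient.mk _ d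
  have : Fintype (Quotient (Perm.SameCycle.setoid π)) := Fintype.ofSurjective q (Quotient.mk_surjective)
  have h1 : ∑ d, (1 : ℚ) / (L d : ℚ) = ∑ c, ∑ d ∈ Finset.univ.filter (fun d => q d = c), (1 : ℚ) / (L d : ℚ) :=
    (Finset.sum_fiberwise Finset.univ q _).symm
  have h2 : (cyc π : ℚ) = ∑ _c : Quotient (Perm.SameCycle.setoid π), (1 : ℚ) := by
    rw [Finset.sum_const, Finset.card_univ, nsmul_eq_mul, mul_one]
    unfold cyc
    rw [Nat.card_eq_fintype_card]
  rw [h1, h2]
  refine Finset.sum_le_sum fun c _ => ?_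
  have h3 : ∀ d ∈ Finset.univ.filter (fun d => q d = c),
      (Finset.univ.filter (fun d => q d = c)).card ≤ L d := by
    intro d h4
    have h5 : q d = c := (Finset.mem_filter.1 h4).2
    have h6 : Finset.univ.filter (fun e => q e = c) ⊆ (Finset.range (L d)).image (fun t => (π ^ t) d) := by
      intro e h7
      have h8 : q e = c := (Finset.mem_filter.1 h7).2
      have h9 : π.SameCycle d e := Quotient.exact (h5.trans h8.symm)
      obtain ⟨t, h10, h11⟩ := CYL_mem π (L d) (hL d) d e (hd d) h9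
      exact Finset.mem_image.2 ⟨t, Finset.mem_range.2 h10, h11⟩
    calc (Finset.univ.filter (fun e => q e = c)).card ≤ ((Finset.range (L d)).image (fun t => (π ^ t) d)).card :=
          Finset.card_le_card h6
      _ ≤ (Finset.range (L d)).card := Finset.card_image_le
      _ = L d := Finset.card_range _
  rcases Finset.eq_empty_or_nonempty (Finset.univ.filter (fun d => q d = c)) with h4 | h4
  · rw [h4, Finset.sum_empty]
    norm_num
  · have h5 : (0 : ℚ) < ((Finset.univ.filter (fun d => q d = c)).card : ℚ) := by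
      exact_mod_cast Finset.card_pos.2 h4
    calc ∑ d ∈ Finset.univ.filter (fun d => q d = c), (1 : ℚ) / (L d : ℚ)
        ≤ ∑ _d ∈ Finset.univ.filter (fun d => q d = c),
          (1 : ℚ) / ((Finset.univ.filter (fun d => q d = c)).card : ℚ) := by
          refine Finset.sum_le_sum fun d h6 => ?_
          refine one_div_le_one_div_of_le h5 ?_
          exact_mod_cast h3 d h6
      _ = 1 := by
          rw [Finset.sum_const, nsmul_eq_mul, mul_one_div_cancel h5.ne']

end Pool.Agent.NTA
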