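import Pool.Agent.helper34.NTA.Spec

set_option autoImplicit false

namespace Pool.Agent.NTA

open Equiv

section

variable {H : Type} [Group H] {s : ZMod 10 → H} {sg : H →* ℤˣ} {σ : Perm (II H × Bool)}

open Classical in
/-- the next label -/
noncomputable def FAC_nx (sg : H →* ℤˣ) (h : H) (c : ZMod 10) : ZMod 10 := if sg h = 1 then c + 1 else c - 1

theorem FAC_1 (hR : Rot s sg σ) (h : H) (c : ZMod 10) :
    (oppI H * σ) (Sum.inl (h, c), false) = (Sum.inl (h, FAC_nx sg h c), true) := by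
  rw [Perm.mul_apply, hR.big h c]
  rfl

theorem FAC_R (hR : Rot s sg σ) (h : H) (c : ZMod 10) (hc : ¬ KL c) :
    (oppI H * σ) (Sum.inl (h, c), true) = (Sum.inl (h * s c, c), false) := by
  rw [Perm.mul_apply, hR.edR h c hc]
  rfl

theorem FAC_K1 (hR : Rot s sg σ) (h : H) (c : ZMod 10) (hc : KL c) :
    (oppI H * σ) (Sum.inl (h, c), true) = (Sum.inr (h, ⟨c, hc⟩), false) := by
  rw [Perm.mul_apply, hR.edK h c hc]
  rfl

theorem FAC_K2 (hR : Rot s sg σ) (h : H) (c : {c : ZMod 10 // KL c}) :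
    (oppI H * σ) (Sum.inr (h, c), false) = (Sum.inr (h * s c.1, c), true) := by
  rw [Perm.mul_apply, hR.sml h c]
  rfl

theorem FAC_K3 (hR : Rot s sg σ) (h : H) (c : {c : ZMod 10 // KL c}) :
    (oppI H * σ) (Sum.inr (h, c), true) = (Sum.inl (h, c.1), false) := by
  rw [Perm.mul_apply, hR.edY h c]
  rfl

theorem FAC_p2 {D : Type} (π : Perm D) (x : D) : (π ^ 2) x = π (π x) := by
  rw [pow_two, Perm.mul_apply]

theorem FAC_p4 {D : Type} (π : Perm D) (x : D) : (π ^ 4) x = π (π (π (π x))) := by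
  rw [show (4 : ℕ) = 2 + 2 from rfl, pow_add, Perm.mul_apply, FAC_p2, FAC_p2]

theorem FAC_stR (hR : Rot s sg σ) (h : H) (c : ZMod 10) (hc : ¬ KL (FAC_nx sg h c)) :
    ((oppI H * σ) ^ 2) (Sum.inl (h, c), false) =
      (Sum.inl (h * s (FAC_nx sg h c), FAC_nx sg h c), false) := by
  rw [FAC_p2, FAC_1 hR, FAC_R hR _ _ hc]

theorem FAC_stK (hR : Rot s sg σ) (h : H) (c : ZMod 10) (hc : KL (FAC_nx sg h c)) :
    ((oppI H * σ) ^ 4) (Sum.inl (h, c), false) =
      (Sum.inl (h * s (FAC_nx sg h c), FAC_nx sg h c), false) := by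
  rw [FAC_p4, FAC_1 hR, FAC_K1 hR _ _ hc, FAC_K2 hR, FAC_K3 hR]

theorem FAC_par : ∀ c : ZMod 10, (KL (c + 1) ↔ ¬ KL c) ∧ (KL (c - 1) ↔ ¬ KL c) := by decide

theorem FAC_nx_KL (h : H) (c : ZMod 10) : KL (FAC_nx sg h c) ↔ ¬ KL c := by
  unfold FAC_nx
  split_ifs
  · exact (FAC_par c).1
  · exact (FAC_par c).2

theorem FAC_nx_nx (hG : Grp H s sg) (h : H) (c : ZMod 10) :
    FAC_nx sg (h * s (FAC_nx sg h c)) (FAC_nx sg h c) = c := by
  by_cases h1 : sg h = 1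
  · have h2 : FAC_nx sg h c = c + 1 := if_pos h1
    rw [h2]
    have h3 : sg (h * s (c + 1)) ≠ 1 := fun h4 => (sg_one_iff hG h (c + 1)).1 h4 h1
    have h5 : FAC_nx sg (h * s (c + 1)) (c + 1) = c + 1 - 1 := if_neg h3
    rw [h5, add_sub_cancel_right]
  · have h2 : FAC_nx sg h c = c - 1 := if_neg h1
    rw [h2]
    have h3 : sg (h * s (c - 1)) = 1 := (sg_one_iff hG h (c - 1)).2 h1
    have h5 : FAC_nx sg (h * s (c - 1)) (c - 1) = c - 1 + 1 := if_pos h3
    rw [h5, sub_add_cancel]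

theorem FAC_six (hG : Grp H s sg) (hR : Rot s sg σ) (h : H) (c : ZMod 10) :
    ((oppI H * σ) ^ 6) (Sum.inl (h, c), false) =
      (Sum.inl (h * (s (FAC_nx sg h c) * s c), c), false) := by
  have h0 := FAC_nx_nx hG h c
  by_cases hc : KL (FAC_nx sg h c)
  · have h1 : ¬ KL c := (FAC_nx_KL h c).1 hc
    rw [show (6 : ℕ) = 2 + 4 from rfl, pow_add, Perm.mul_apply, FAC_stK hR h c hc,
      FAC_stR hR _ _ (by rw [h0]; exact h1), h0, mul_assoc]
  · have h1 : KL c := by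
      by_contra h2
      exact hc ((FAC_nx_KL h c).2 h2)
    rw [show (6 : ℕ) = 4 + 2 from rfl, pow_add, Perm.mul_apply, FAC_stR hR h c hc,
      FAC_stK hR _ _ (by rw [h0]; exact h1), h0, mul_assoc]

theorem FAC_sgn (hG : Grp H s sg) (c c' : ZMod 10) (n : ℕ) : sg ((s c' * s c) ^ n) = 1 := by
  rw [map_pow, map_mul, hG.sgn, hG.sgn, show (-1 : ℤˣ) * (-1) = 1 by decide, one_pow]

theorem FAC_it (hG : Grp H s sg) (hR : Rot s sg σ) (h : H) (c : ZMod 10) (n : ℕ) :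
    (((oppI H * σ) ^ 6) ^ n) (Sum.inl (h, c), false) =
      (Sum.inl (h * (s (FAC_nx sg h c) * s c) ^ n, c), false) := by
  induction n with
  | zero => rw [pow_zero, pow_zero, mul_one, Perm.one_apply]
  | succ n ih =>
    rw [pow_succ', Perm.mul_apply, ih, FAC_six hG hR]
    have h1 : FAC_nx sg (h * (s (FAC_nx sg h c) * s c) ^ n) c = FAC_nx sg h c := by
      have h2 : sg (h * (s (FAC_nx sg h c) * s c) ^ n) = sg h := by
        rw [map_mul, FAC_sgn hG, mul_one]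
      unfold FAC_nx at h2 ⊢
      rw [h2]
    rw [h1, mul_assoc, ← pow_succ]

theorem FAC_four (hG : Grp H s sg) (h : H) (c : ZMod 10) : (s (FAC_nx sg h c) * s c) ^ 4 = 1 := by
  have h1 := hG.four
  by_cases h2 : sg h = 1
  · have h3 : FAC_nx sg h c = c + 1 := if_pos h2
    rw [h3]
    have h4 : s (c + 1) * s c = (s c * s (c + 1))⁻¹ := by
      rw [mul_inv_rev, inv_eq_of_mul_eq_one_left (hG.inv c), inv_eq_of_mul_eq_one_left (hG.inv (c + 1))]
    rw [h4, inv_pow, h1, inv_one]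
  · have h3 : FAC_nx sg h c = c - 1 := if_neg h2
    rw [h3]
    have h4 := h1 (c - 1)
    rw [sub_add_cancel] at h4
    exact h4

theorem FAC_f (hG : Grp H s sg) (hR : Rot s sg σ) (h : H) (c : ZMod 10) :
    ((oppI H * σ) ^ 24) (Sum.inl (h, c), false) = (Sum.inl (h, c), false) := by
  rw [show (24 : ℕ) = 6 * 4 from rfl, pow_mul, FAC_it hG hR, FAC_four hG, mul_one]

theorem FAC_mv {D : Type} (π : Perm D) (n : ℕ) (x : D) (h : (π ^ n) x = x) : (π ^ n) (π x) = π x := by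
  rw [← Perm.mul_apply, ← pow_succ, pow_succ', Perm.mul_apply, h]

theorem FAC_pre (h : H) (c : ZMod 10) : ∃ c0, FAC_nx sg h c0 = c := by
  by_cases h1 : sg h = 1
  · exact ⟨c - 1, (if_pos h1 : FAC_nx sg h (c - 1) = c - 1 + 1).trans (sub_add_cancel c 1)⟩
  · exact ⟨c + 1, (if_neg h1 : FAC_nx sg h (c + 1) = c + 1 - 1).trans (add_sub_cancel_right c 1)⟩

theorem FAC_g (hG : Grp H s sg) (hR : Rot s sg σ) (h : H) (c : ZMod 10) :
    ((oppI H * σ) ^ 24) (Sum.inl (h, c), true) = (Sum.inl (h, c), true) := by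
  obtain ⟨c0, h0⟩ := FAC_pre (sg := sg) h c
  have h1 := FAC_mv _ _ _ (FAC_f hG hR h c0)
  rw [FAC_1 hR, h0] at h1
  exact h1

theorem FAC_k (hG : Grp H s sg) (hR : Rot s sg σ) (h : H) (c : {c : ZMod 10 // KL c}) :
    ((oppI H * σ) ^ 24) (Sum.inr (h, c), false) = (Sum.inr (h, c), false) := by
  have h1 := FAC_mv _ _ _ (FAC_g hG hR h c.1)
  rw [FAC_K1 hR h c.1 c.2] at h1
  exact h1

theorem FAC_l (hG : Grp H s sg) (hR : Rot s sg σ) (h : H) (c : {c : ZMod 10 // KL c}) :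
    ((oppI H * σ) ^ 24) (Sum.inr (h, c), true) = (Sum.inr (h, c), true) := by
  have h1 := FAC_mv _ _ _ (FAC_k hG hR (h * s c.1) c)
  rw [FAC_K2 hR, mul_s_mul_s hG] at h1
  exact h1

end

theorem FAC : FAC_stmt := by
  intro H _ _ s sg hG σ hR d
  rcases d with ⟨⟨h, c⟩ | ⟨h, c⟩, b⟩ <;> cases b
  · exact FAC_f hG hR h c
  · exact FAC_g hG hR h c
  · exact FAC_k hG hR h c
  · exact FAC_l hG hR h c

end Pool.Agent.NTA
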